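import Pool.Agent.W30.TW.Lat
import Pool.Agent.W425.SM.Final

set_option autoImplicit false

/-! The kernel polynomial of the twisted topological zeta functions. -/

namespace Pool.Agent.W30.TW

open MvPolynomial Pool.Agent.H628R4.TZ Pool.Agent.H628R4.TP Pool.Agent.W425.SM MeasureTheory Filter
  Topology

variable {r N : ℕ}

/-- The kernel polynomial. -/
noncomputable def kerE (v : Fin r → Fin N → ℕ) (e : ℕ) : MvPolynomial (Fin r) ℂ :=
  open Classical in
  ∑ J : Finset (Fin r), if Tw v J e then C ((idx v J : ℂ) ^ 2) * ∏ j ∈ J, X j else 0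

theorem taskKE (v : Fin r → Fin N → ℕ) (e : ℕ) (κ : Fin r → ℕ) (i : Fin N)
    (hκ : ∑ j, κ j * v j i = 1) :
    kerE v e ∈ Ideal.span {p : MvPolynomial (Fin r) ℂ |
      ∃ j, 0 < v j i ∧ p = X j + C ((κ j : ℕ) : ℂ)} := by
  classical
  have h1 : ∃ j0, κ j0 * v j0 i ≠ 0 := by
    by_contra hcon
    push Not at hcon
    rw [Finset.sum_eq_zero fun j _ => hcon j] at hκ
    exact zero_ne_one hκ
  obtain ⟨j0, hj0⟩ := h1
  have h2 : κ j0 * v j0 i + ∑ j ∈ Finset.univ.erase j0, κ j * v j i = 1 := by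
    rw [Finset.add_sum_erase Finset.univ (fun j => κ j * v j i) (Finset.mem_univ j0)]
    exact hκ
  have h3 : κ j0 * v j0 i = 1 := by omega
  have h4 : ∀ j, j ≠ j0 → κ j * v j i = 0 := by
    intro j hj
    have h5 : ∑ j ∈ Finset.univ.erase j0, κ j * v j i = 0 := by omega
    exact (Finset.sum_eq_zero_iff.1 h5) j (Finset.mem_erase.2 ⟨hj, Finset.mem_univ j⟩)
  have hk1 : κ j0 = 1 := Nat.eq_one_of_mul_eq_one_right h3
  have hv1 : v j0 i = 1 := Nat.eq_one_of_mul_eq_one_left h3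
  set I := Ideal.span {p : MvPolynomial (Fin r) ℂ | ∃ j, 0 < v j i ∧ p = X j + C ((κ j : ℕ) : ℂ)}
    with hI
  have hX : ∀ j, j ≠ j0 → 0 < v j i → (X j : MvPolynomial (Fin r) ℂ) ∈ I := by
    intro j hj hv
    have hk : κ j = 0 := by
      rcases Nat.mul_eq_zero.1 (h4 j hj) with h | h
      · exact h
      · omega
    refine Ideal.subset_span ⟨j, hv, ?_⟩
    rw [hk]
    simp
  have hX0 : (X j0 + 1 : MvPolynomial (Fin r) ℂ) ∈ I := by
    refine Ideal.subset_span ⟨j0, by omega, ?_⟩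
    rw [hk1]
    simp
  unfold kerE
  rw [← Finset.powerset_univ, ← Finset.insert_erase (Finset.mem_univ j0),
    Finset.sum_powerset_insert (Finset.notMem_erase j0 _), ← Finset.sum_add_distrib]
  refine Ideal.sum_mem _ fun J hJ => ?_
  have hj0J : j0 ∉ J := fun h => Finset.notMem_erase j0 _ ((Finset.mem_powerset.1 hJ) h)
  by_cases hex : ∃ j ∈ J, 0 < v j i
  · obtain ⟨j, hj, hv⟩ := hex
    have hne : j ≠ j0 := fun h => hj0J (h ▸ hj)
    refine Ideal.add_mem _ ?_ ?_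
    · split_ifs
      · refine Ideal.mul_mem_left _ _ ?_
        rw [← Finset.mul_prod_erase J _ hj]
        exact Ideal.mul_mem_right _ _ (hX j hne hv)
      · exact Ideal.zero_mem _
    · split_ifs
      · refine Ideal.mul_mem_left _ _ ?_
        rw [← Finset.mul_prod_erase (insert j0 J) _ (Finset.mem_insert_of_mem hj)]
        exact Ideal.mul_mem_right _ _ (hX j hne hv)
      · exact Ideal.zero_mem _
  · push Not at hex
    have h0 : ∀ j ∈ J, v j i = 0 := fun j hj => Nat.le_zero.1 (hex j hj)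
    have htw := tw_insert v e i J j0 hv1 h0
    by_cases hT : Tw v J e
    · rw [if_pos hT, if_pos (htw.2 hT),
        Pool.Agent.W655.SM.idx_insert v i J j0 hj0J hv1 h0, Finset.prod_insert hj0J]
      have h5 : C ((idx v J : ℂ) ^ 2) * ∏ j ∈ J, X j +
          C ((idx v J : ℂ) ^ 2) * (X j0 * ∏ j ∈ J, X j) =
          (C ((idx v J : ℂ) ^ 2) * ∏ j ∈ J, X j) * (X j0 + 1 : MvPolynomial (Fin r) ℂ) := by ring
      rw [h5]
      exact Ideal.mul_mem_left _ _ hX0
    · rw [if_neg hT, if_neg (fun h => hT (htw.1 h)), add_zero]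
      exact Ideal.zero_mem _

/-- the value of the limit of the functional at the kernel -/
noncomputable def ZE (v : Fin r → Fin N → ℕ) (R : SmoothFan N) (e : ℕ) (s : ℝ) : ℂ :=
  open Classical in
  ∑ J : Finset (Fin r), if Tw v J e then
    (idx v J : ℂ) ^ 2 * ((-1) ^ J.card * limJ v R 1 s J) else 0

lemma kerE_lim (v : Fin r → Fin N → ℕ) (R : SmoothFan N) (e : ℕ) (he : 2 ≤ e)
    (K s : ℝ) (hs : 0 < s)
    (hC : ∀ J : Finset (Fin r), J.Nonempty → Tendsto (fun m : ℕ => ∫ x, integ v K 1 s J m x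
      ∂(Measure.pi (ms (∅ : Finset (Fin (N+1)))))) atTop (𝓝 (limJ v R 1 s J))) :
    Tendsto (fun m : ℕ => Φ (ph (dl m ^ 2)) ∅ (lm (N := N) s) (av v) (yz v K 1 m) (kerE v e)) atTop
      (𝓝 (ZE v R e s)) := by
  classical
  have h1 : ∀ m : ℕ, Φ (ph (dl m ^ 2)) ∅ (lm (N := N) s) (av v) (yz v K 1 m) (kerE v e) =
      ∑ J : Finset (Fin r), if Tw v J e then (idx v J : ℂ) ^ 2 * ((-1) ^ J.card *
        ∫ x, integ v K 1 s J m x ∂(Measure.pi (ms (∅ : Finset (Fin (N+1)))))) else 0 := by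
    intro m
    unfold kerE
    rw [Φ_sum (ph_dseq _ (pow_pos (dl_pos m) 2)) _ _ (lm_pos s hs)]
    refine Finset.sum_congr rfl fun J _ => ?_
    by_cases hT : Tw v J e
    · rw [if_pos hT, if_pos hT, Φ_C_mul, Φ_XJ]
    · rw [if_neg hT, if_neg hT]
      have h2 := Φ_C_mul (φ := ph (dl m ^ 2)) ∅ (lm (N := N) s) (av v) (yz v K 1 m) 0 0
      simpa using h2
  simp only [h1]
  unfold ZE
  refine tendsto_finsetSum _ fun J _ => ?_
  by_cases hT : Tw v J e
  · simp only [if_pos hT]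
    have hJ : J.Nonempty := by
      rw [Finset.nonempty_iff_ne_empty]
      rintro rfl
      exact not_tw_empty v e he hT
    exact ((hC J hJ).const_mul _).const_mul _
  · simp only [if_neg hT]
    exact tendsto_const_nhds

theorem pZE (v : Fin r → Fin N → ℕ) (R : SmoothFan N) (e : ℕ) (he : 2 ≤ e)
    (p : Polynomial ℂ) (hR : RelM v p)
    (hC : ∀ K : ℝ, 0 < K → ∀ s : ℝ, 0 < s → ∀ J : Finset (Fin r), J.Nonempty →
      Tendsto (fun m : ℕ => ∫ x, integ v K 1 s J m x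
        ∂(Measure.pi (ms (∅ : Finset (Fin (N+1)))))) atTop (𝓝 (limJ v R 1 s J))) :
    ∃ (Q : Polynomial ℂ) (s0 : ℝ), 0 < s0 ∧ ∀ s : ℝ, s0 ≤ s →
      p.eval (s : ℂ) * ZE v R e s = Q.eval (s : ℂ) := by
  obtain ⟨K0, s0, hK0, hs0, hkill⟩ := killsK v p hR (kerE v e) (taskKE v e)
  set K : ℝ := 2 * K0 + 1 with hK
  have hKpos : 0 < K := by positivity
  obtain ⟨Q, hQ⟩ := limit_poly'
    (fun m => PeK v (yz v K 1 m) (dl m ^ 2) (kerE v e) p) p.natDegree
    (fun m => PeK_natDegree _ _ _ _ _) (fun s => p.eval (s : ℂ) * ZE v R e s) s0 (by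
      intro s hs
      have hs' : 0 < s := hs0.trans_le hs
      have h1 := (kerE_lim v R e he K s hs' (fun J hJ => hC K hKpos s hs' J hJ)).const_mul
        (p.eval (s : ℂ))
      refine h1.congr fun m => ?_
      refine PeK_eval v _ _ _ p s (pow_pos (dl_pos m) 2) hs' ?_
      rw [yz_eq]
      refine hkill _ (pow_pos (dl_pos m) 2) _ _ ?_ s hs
      have hd := dl_pos m
      have hd1 := dl_le m
      rw [abs_mul, abs_of_pos hd, hK, abs_one]
      have h2 : dl m ^ 2 ≤ dl m := by nlinarith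
      have h3 : (dl m ^ 2 + 1 * dl m) * K0 ≤ (dl m + 1 * dl m) * K0 :=
        mul_le_mul_of_nonneg_right (by linarith) hK0
      nlinarith)
  exact ⟨Q, s0, hs0, fun s hs => hQ s hs⟩

open Classical in
lemma ZE_eq [NeZero r] (v : Fin r → Fin N → ℕ) (hv : Ind v) (R : SmoothFan N)
    (hR : Principal v R) (e : ℕ) (s : ℝ) :
    ZE v R e s = ∑ σ ∈ R.cones,
      if σ.card + (minSet v σ).card = N + 1 ∧ (∃ ρ ∈ σ, ordAlong v ρ ≠ 0) ∧
        (∀ ρ ∈ σ, e ∣ ordAlong v ρ) then (-1) ^ (minSet v σ).card * (idx v (minSet v σ) : ℂ) *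
          wc v σ s else 0 := by
  have hidx : ∀ J, idx v J ≠ 0 := fun J => (Pool.Agent.W655.SM.taskC4 v J hv).1
  have hI : ∀ σ : Finset (Fin N → ℕ), Inc 1 σ := fun σ => Or.inl one_pos
  have h0 : ZE v R e s = ∑ J : Finset (Fin r), ∑ σ ∈ R.cones,
      if minSet v σ = J ∧ σ.card + J.card = N + 1 ∧ Inc 1 σ ∧ (∃ ρ ∈ σ, ordAlong v ρ ≠ 0) ∧
        Tw v J e then (idx v J : ℂ) ^ 2 * ((-1) ^ J.card * ((idx v J : ℂ)⁻¹ * wc v σ s)) else 0 := by
    unfold ZE limJ
    refine Finset.sum_congr rfl fun J _ => ?_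
    by_cases hT : Tw v J e
    · rw [if_pos hT, Finset.mul_sum, Finset.mul_sum]
      refine Finset.sum_congr rfl fun σ _ => ?_
      by_cases h : minSet v σ = J ∧ σ.card + J.card = N + 1 ∧ Inc 1 σ ∧
          (∃ ρ ∈ σ, ordAlong v ρ ≠ 0)
      · rw [if_pos h, if_pos ⟨h.1, h.2.1, h.2.2.1, h.2.2.2, hT⟩]
        rfl
      · rw [if_neg h, if_neg (fun h' => h ⟨h'.1, h'.2.1, h'.2.2.1, h'.2.2.2.1⟩)]
        simp
    · rw [if_neg hT]
      refine (Finset.sum_eq_zero fun σ _ => ?_).symm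
      rw [if_neg (fun h' => hT h'.2.2.2.2)]
  rw [h0, Finset.sum_comm]
  refine Finset.sum_congr rfl fun σ hσ => ?_
  rw [Finset.sum_eq_single (minSet v σ)]
  · have h1 : (idx v (minSet v σ) : ℂ) ≠ 0 := by exact_mod_cast hidx _
    by_cases hc : σ.card + (minSet v σ).card = N + 1
    · have htw := tw_iff v hv R hR σ hσ e hc
      by_cases h : (∃ ρ ∈ σ, ordAlong v ρ ≠ 0) ∧ (∀ ρ ∈ σ, e ∣ ordAlong v ρ)
      · rw [if_pos ⟨rfl, hc, hI σ, h.1, htw.1 h.2⟩, if_pos ⟨hc, h⟩]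
        field_simp
      · rw [if_neg (fun h' => h ⟨h'.2.2.2.1, htw.2 h'.2.2.2.2⟩), if_neg (fun h' => h h'.2)]
    · rw [if_neg (fun h' => hc h'.2.1), if_neg (fun h' => hc h'.1)]
  · intro J _ hJ
    rw [if_neg (fun h => hJ h.1.symm)]
  · intro h
    exact absurd (Finset.mem_univ _) h

/-- The twisted topological zeta function for `e ≥ 2`. -/
noncomputable def twZ (v : Fin r → Fin N → ℕ) (R : SmoothFan N) (e : ℕ) : RatFunc ℂ :=
  open Classical in
  ∑ σ ∈ R.cones.filter (fun σ => (∃ ρ ∈ σ, ordAlong v ρ ≠ 0) ∧ ∀ ρ ∈ σ, e ∣ ordAlong v ρ),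
    ((chiO σ - chiH v σ : ℤ) : RatFunc ℂ) *
    ∏ ρ ∈ σ, ((ordAlong v ρ : RatFunc ℂ) * RatFunc.X + ((∑ l, ρ l : ℕ) : RatFunc ℂ))⁻¹

open Classical Polynomial in
theorem main_tw [NeZero r] (v : Fin r → Fin N → ℕ) (hv : Ind v)
    (R : SmoothFan N) (hR : Principal v R) (e : ℕ) (he : 2 ≤ e) (p : ℂ[X]) (hp : RelM v p) :
    ∃ P : ℂ[X], algebraMap ℂ[X] (RatFunc ℂ) p * twZ v R e = algebraMap ℂ[X] (RatFunc ℂ) P := by
  obtain ⟨Q, s0, hs0, hQ⟩ := pZE v R e he p hp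
    (fun K hK s hs J hJ => conv_all v hv R hR 1 one_ne_zero K hK s hs J hJ)
  set F : ℝ → ℂ := fun s => ∑ σ ∈ R.cones.filter
    (fun σ => (∃ ρ ∈ σ, ordAlong v ρ ≠ 0) ∧ ∀ ρ ∈ σ, e ∣ ordAlong v ρ),
    ((chiO σ - chiH v σ : ℤ) : ℂ) * wc v σ s with hF
  have hRp : Rp (twZ v R e) F := by
    unfold twZ
    refine Rp.sum _ _ _ fun σ hσ => (Rp.const _).mul ?_
    unfold wc
    refine Rp.prod _ _ _ fun ρ hρ => ?_
    exact Rp.inv_lin _ _ (ray_sum_pos R σ (Finset.mem_filter.1 hσ).1 ρ hρ)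
  refine ⟨-Q, hRp.final _ _ s0 hs0 fun s hs => ?_⟩
  have h1 := hQ s hs
  have h2 : F s = -ZE v R e s := by
    rw [ZE_eq v hv R hR e s]
    show ∑ σ ∈ R.cones.filter (fun σ => (∃ ρ ∈ σ, ordAlong v ρ ≠ 0) ∧ ∀ ρ ∈ σ, e ∣ ordAlong v ρ),
      ((chiO σ - chiH v σ : ℤ) : ℂ) * wc v σ s = _
    rw [Finset.sum_filter, ← Finset.sum_neg_distrib]
    refine Finset.sum_congr rfl fun σ hσ => ?_
    by_cases h : (∃ ρ ∈ σ, ordAlong v ρ ≠ 0) ∧ (∀ ρ ∈ σ, e ∣ ordAlong v ρ)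
    swap
    · rw [if_neg h, if_neg (fun h' => h h'.2)]; simp
    rw [if_pos h]
    have hpos := (minSet_nonempty v R hR σ hσ).card_pos
    by_cases hcard : σ.card + (minSet v σ).card = N + 1
    · rw [if_pos ⟨hcard, h⟩]
      by_cases h1 : (minSet v σ).card = 1
      · have hN : σ.card = N := by omega
        rw [(Pool.Agent.W655.SM.taskC4 v (minSet v σ) hv).2.1 h1, h1]
        unfold chiO chiH
        rw [if_pos hN, if_neg (by omega)]
        push_cast
        ring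
      · have hN : σ.card ≠ N := by omega
        unfold chiO chiH
        rw [if_neg hN, if_pos ⟨by omega, hcard⟩]
        push_cast
        ring
    · have hN : σ.card ≠ N := fun h => hcard (by rw [full_minSet v (Ind.injective hv) R hR σ hσ h, h])
      rw [if_neg (fun h => hcard h.1)]
      unfold chiO chiH
      rw [if_neg hN, if_neg (fun h => hcard h.2)]
      simp
  rw [h2, Polynomial.eval_neg, ← h1]
  ring

end Pool.Agent.W30.TW
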