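import Pool.Agent.W425.SM.Stmts
import Pool.Agent.W425.SM.Main

set_option autoImplicit false

/-! Twisted topological zeta functions of sparse polynomials: the divisibility condition. -/

namespace Pool.Agent.W30.TW

open MvPolynomial Pool.Agent.H628R4.TZ Pool.Agent.H628R4.TP Pool.Agent.W425.SM

variable {r N : ℕ}

/-- `e` divides `t` for all integer solutions `(w, t)` of `⟨w, v_j⟩ + t = 0`, `j ∈ J`. -/
def Tw (v : Fin r → Fin N → ℕ) (J : Finset (Fin r)) (e : ℕ) : Prop :=
  ∀ (w : Fin N → ℤ) (t : ℤ), (∀ j ∈ J, ∑ i, w i * (v j i : ℤ) + t = 0) → (e : ℤ) ∣ t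

lemma not_tw_empty (v : Fin r → Fin N → ℕ) (e : ℕ) (he : 2 ≤ e) : ¬ Tw v ∅ e := by
  intro h
  have h1 := h 0 1 (by simp)
  have h2 : (e : ℤ) ≤ 1 := Int.le_of_dvd one_pos h1
  omega

lemma tw_insert (v : Fin r → Fin N → ℕ) (e : ℕ) (i : Fin N) (J : Finset (Fin r)) (j0 : Fin r)
    (h1 : v j0 i = 1) (h0 : ∀ j ∈ J, v j i = 0) : Tw v (insert j0 J) e ↔ Tw v J e := by
  classical
  constructor
  · intro h w t hw
    set c : ℤ := -(∑ l, w l * (v j0 l : ℤ) + t) with hc
    refine h (w + Pi.single i c) t fun j hj => ?_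
    have key : ∑ l, (w + Pi.single i c : Fin N → ℤ) l * (v j l : ℤ) =
        ∑ l, w l * (v j l : ℤ) + c * (v j i : ℤ) := by
      simp only [Pi.add_apply, add_mul, Finset.sum_add_distrib, add_right_inj]
      rw [Finset.sum_eq_single i]
      · simp
      · intro b _ hb; simp [hb]
      · intro hcon; exact absurd (Finset.mem_univ i) hcon
    rw [key]
    rcases Finset.mem_insert.1 hj with rfl | hj
    · rw [h1, hc]; push_cast; ring
    · rw [h0 j hj]
      have := hw j hj
      push_cast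
      linarith
  · intro h w t hw
    exact h w t fun j hj => hw j (Finset.mem_insert_of_mem hj)

/-- A maximal cone on which the minimal exponents are exactly those of `J` generates the lattice of
all `w` with `⟨w, v_j⟩` independent of `j ∈ J`. -/
lemma exists_comb (v : Fin r → Fin N → ℕ) (hv : Ind v) (R : SmoothFan N)
    (σ : Finset (Fin N → ℕ)) (hσ : σ ∈ R.cones) (J : Finset (Fin r)) (hJ : J.Nonempty)
    (hmin : ∀ ρ ∈ σ, ∀ j ∈ J, ∀ j' ∈ J, ∑ l, ρ l * v j l = ∑ l, ρ l * v j' l)
    (hcard : σ.card + J.card = N + 1) (w : Fin N → ℤ) (t : ℤ)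
    (hw : ∀ j ∈ J, ∑ i, w i * (v j i : ℤ) + t = 0) :
    ∃ c : (Fin N → ℕ) → ℤ, ∀ l, w l = ∑ ρ ∈ σ, c ρ * (ρ l : ℤ) := by
  classical
  obtain ⟨B, hB, hrow⟩ := R.smooth σ hσ
  choose f hf using fun ρ : σ => hrow ρ ρ.2
  have hinj : Function.Injective f := by
    intro ρ ρ' h
    apply Subtype.ext
    funext l
    have h1 := hf ρ l
    have h2 := hf ρ' l
    rw [h] at h1
    rw [h1] at h2
    exact_mod_cast h2
  -- integer coordinates of `w`
  set c : Fin N → ℤ := Matrix.vecMul w B⁻¹ with hc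
  have hwB : Matrix.vecMul c B = w := by
    rw [hc, Matrix.vecMul_vecMul, Matrix.nonsing_inv_mul _ hB, Matrix.vecMul_one]
  obtain ⟨j0, hj0⟩ := hJ
  set T : Finset (Fin N) := Finset.univ.filter (fun i => ∀ ρ, f ρ ≠ i) with hT
  have hTc : T.card = J.card - 1 := by
    have h1 : (Finset.univ.image f).card = σ.card := by
      rw [Finset.card_image_of_injective _ hinj, Finset.card_univ, Fintype.card_coe]
    have h2 : T = (Finset.univ.image f)ᶜ := by
      ext i
      simp [hT]
    rw [h2, Finset.card_compl, h1, Fintype.card_fin]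
    omega
  -- the vectors `B (v_j - v_j0)` restricted to `T`
  let g : {j // j ∈ J.erase j0} → (T → ℚ) := fun j i =>
    ∑ l, (B i l : ℚ) * ((v j l : ℚ) - (v j0 l : ℚ))
  have hli0 := (affineIndependent_iff_linearIndependent_vsub ℚ
    (fun j : Fin r => (fun i => (v j i : ℚ) : Fin N → ℚ)) j0).1 hv
  have hg : LinearIndependent ℚ g := by
    rw [Fintype.linearIndependent_iff]
    intro a ha
    set d : Fin N → ℚ := fun l => ∑ j, a j * ((v j l : ℚ) - (v j0 l : ℚ)) with hd
    have hBd : ∀ i, ∑ l, (B i l : ℚ) * d l = 0 := by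
      intro i
      have h1 : ∑ l, (B i l : ℚ) * d l =
          ∑ j, a j * ∑ l, (B i l : ℚ) * ((v j l : ℚ) - (v j0 l : ℚ)) := by
        simp only [hd, Finset.mul_sum]
        rw [Finset.sum_comm]
        exact Finset.sum_congr rfl fun j _ => Finset.sum_congr rfl fun l _ => by ring
      rw [h1]
      by_cases hi : i ∈ T
      · have h2 := congrFun ha ⟨i, hi⟩
        simp only [Finset.sum_apply, Pi.smul_apply, smul_eq_mul, Pi.zero_apply] at h2
        exact h2
      · have h3 : ∃ ρ, f ρ = i := by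
          by_contra hcon
          push Not at hcon
          exact hi (Finset.mem_filter.2 ⟨Finset.mem_univ _, hcon⟩)
        obtain ⟨ρ, rfl⟩ := h3
        refine Finset.sum_eq_zero fun j _ => ?_
        have h4 := hmin ρ ρ.2 j (Finset.mem_of_mem_erase j.2) j0 hj0
        have h5 : ∑ l, (B (f ρ) l : ℚ) * ((v j l : ℚ) - (v j0 l : ℚ)) = 0 := by
          have h6 : ∀ l, (B (f ρ) l : ℚ) = ((ρ : Fin N → ℕ) l : ℚ) := fun l => by
            rw [hf ρ l]; simp
          simp only [h6, mul_sub, Finset.sum_sub_distrib]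
          rw [sub_eq_zero]
          exact_mod_cast h4
        rw [h5, mul_zero]
    have hd0 : d = 0 := by
      have hdet : (B.map (Int.cast : ℤ → ℚ)).det ≠ 0 := by
        have h1 : (B.map (Int.cast : ℤ → ℚ)).det = ((B.det : ℤ) : ℚ) := by
          have := (Int.castRingHom ℚ).map_det B
          simpa using this.symm
        rw [h1]
        exact_mod_cast hB.ne_zero
      refine Matrix.eq_zero_of_mulVec_eq_zero hdet ?_
      funext i
      simpa [Matrix.mulVec, dotProduct] using hBd i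
    -- linear independence of the differences
    have hli : LinearIndependent ℚ (fun j : {j // j ∈ J.erase j0} =>
        ((fun i => (v j i : ℚ)) -ᵥ (fun i => (v j0 i : ℚ)) : Fin N → ℚ)) := by
      have := hli0.comp (fun j : {j // j ∈ J.erase j0} =>
        (⟨j.1, Finset.ne_of_mem_erase j.2⟩ : {x // x ≠ j0})) (by
          intro x y hxy
          apply Subtype.ext
          exact congrArg (fun z : {x // x ≠ j0} => (z : Fin r)) hxy)
      exact this
    rw [Fintype.linearIndependent_iff] at hli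
    refine hli a ?_
    funext l
    have h1 := congrFun hd0 l
    simp only [hd, Pi.zero_apply] at h1
    simpa [Finset.sum_apply] using h1
  have hspan : Submodule.span ℚ (Set.range g) = ⊤ := by
    refine hg.span_eq_top_of_card_eq_finrank' ?_
    rw [Fintype.card_coe, Finset.card_erase_of_mem hj0, Module.finrank_fintype_fun_eq_card,
      Fintype.card_coe, hTc]
  -- the linear form given by `c` on `T`
  let φ : (T → ℚ) →ₗ[ℚ] ℚ := ∑ i : T, (c i : ℚ) • LinearMap.proj i
  have hφ : ∀ x : T → ℚ, φ x = ∑ i : T, (c i : ℚ) * x i := by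
    intro x
    simp [φ]
  have hφg : ∀ j, φ (g j) = 0 := by
    intro j
    rw [hφ]
    have h1 := hw j (Finset.mem_of_mem_erase j.2)
    have h2 := hw j0 hj0
    have h3 : ∑ i, (c i : ℚ) * ∑ l, (B i l : ℚ) * ((v j l : ℚ) - (v j0 l : ℚ)) = 0 := by
      have h4 : ∀ l, (w l : ℚ) = ∑ i, (c i : ℚ) * (B i l : ℚ) := by
        intro l
        rw [← hwB]
        simp [Matrix.vecMul, dotProduct]
      have h5 : ∑ i, (c i : ℚ) * ∑ l, (B i l : ℚ) * ((v j l : ℚ) - (v j0 l : ℚ)) =
          ∑ l, (w l : ℚ) * ((v j l : ℚ) - (v j0 l : ℚ)) := by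
        simp only [h4, Finset.mul_sum, Finset.sum_mul]
        rw [Finset.sum_comm]
        exact Finset.sum_congr rfl fun l _ => Finset.sum_congr rfl fun i _ => by ring
      rw [h5]
      simp only [mul_sub, Finset.sum_sub_distrib]
      have h6 : (∑ l, w l * (v j l : ℤ)) = ∑ l, w l * (v j0 l : ℤ) := by linarith
      rw [sub_eq_zero]
      exact_mod_cast h6
    rw [← Finset.sum_filter_add_sum_filter_not Finset.univ (fun i => ∀ ρ, f ρ ≠ i)] at h3
    have h7 : ∑ i ∈ Finset.univ.filter (fun i => ¬ ∀ ρ, f ρ ≠ i),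
        (c i : ℚ) * ∑ l, (B i l : ℚ) * ((v j l : ℚ) - (v j0 l : ℚ)) = 0 := by
      refine Finset.sum_eq_zero fun i hi => ?_
      have hi' := (Finset.mem_filter.1 hi).2
      push Not at hi'
      obtain ⟨ρ, rfl⟩ := hi'
      have h4 := hmin ρ ρ.2 j (Finset.mem_of_mem_erase j.2) j0 hj0
      have h5 : ∑ l, (B (f ρ) l : ℚ) * ((v j l : ℚ) - (v j0 l : ℚ)) = 0 := by
        have h6 : ∀ l, (B (f ρ) l : ℚ) = ((ρ : Fin N → ℕ) l : ℚ) := fun l => by
          rw [hf ρ l]; simp
        simp only [h6, mul_sub, Finset.sum_sub_distrib]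
        rw [sub_eq_zero]
        exact_mod_cast h4
      rw [h5, mul_zero]
    rw [h7, add_zero] at h3
    rw [← h3, ← Finset.sum_coe_sort T]
  have hφ0 : φ = 0 := by
    refine LinearMap.ext_on_range hspan fun j => ?_
    rw [hφg j]
    rfl
  have hcT : ∀ i ∈ T, c i = 0 := by
    intro i hi
    have h1 := LinearMap.congr_fun hφ0 (Pi.single (⟨i, hi⟩ : T) 1)
    rw [hφ, Finset.sum_eq_single (⟨i, hi⟩ : T)] at h1
    · simp only [Pi.single_eq_same, mul_one, LinearMap.zero_apply] at h1
      exact_mod_cast h1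
    · intro b _ hb
      simp [hb]
    · intro hcon; exact absurd (Finset.mem_univ _) hcon
  refine ⟨fun ρ => if h : ρ ∈ σ then c (f ⟨ρ, h⟩) else 0, fun l => ?_⟩
  have h1 : w l = ∑ i, c i * B i l := by
    conv_lhs => rw [← hwB]
    simp [Matrix.vecMul, dotProduct]
  rw [h1, ← Finset.sum_coe_sort σ]
  have h2 : ∑ i, c i * B i l = ∑ i ∈ Finset.univ.image f, c i * B i l := by
    refine (Finset.sum_subset (Finset.subset_univ _) fun i _ hi => ?_).symm
    rw [hcT i, zero_mul]
    refine Finset.mem_filter.2 ⟨Finset.mem_univ _, fun ρ hρ => hi ?_⟩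
    rw [← hρ]
    exact Finset.mem_image_of_mem _ (Finset.mem_univ _)
  rw [h2, Finset.sum_image fun x _ y _ h => hinj h]
  refine Finset.sum_congr rfl fun ρ _ => ?_
  have h3 : (fun ρ' : Fin N → ℕ => if h : ρ' ∈ σ then c (f ⟨ρ', h⟩) else 0) (ρ : Fin N → ℕ) =
      c (f ρ) := dif_pos ρ.2
  rw [h3, hf ρ l]

/-- For a cone `σ` of the dimension of the face dual to `J = minSet v σ`: all the multiplicities of
the divisors of `σ` are divisible by `e` iff `Tw v J e`. -/
lemma tw_iff [NeZero r] (v : Fin r → Fin N → ℕ) (hv : Ind v) (R : SmoothFan N)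
    (hR : Principal v R) (σ : Finset (Fin N → ℕ)) (hσ : σ ∈ R.cones) (e : ℕ)
    (hcard : σ.card + (minSet v σ).card = N + 1) :
    (∀ ρ ∈ σ, e ∣ ordAlong v ρ) ↔ Tw v (minSet v σ) e := by
  have hmem : ∀ j ∈ minSet v σ, ∀ ρ ∈ σ, ∑ l, ρ l * v j l = ordAlong v ρ := by
    intro j hj
    simpa [minSet] using hj
  constructor
  · intro h w t hw
    obtain ⟨j0, hj0⟩ := minSet_nonempty v R hR σ hσ
    obtain ⟨c, hc⟩ := exists_comb v hv R σ hσ (minSet v σ) ⟨j0, hj0⟩
      (fun ρ hρ j hj j' hj' => by rw [hmem j hj ρ hρ, hmem j' hj' ρ hρ]) hcard w t hw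
    have h1 := hw j0 hj0
    have h2 : ∑ i, w i * (v j0 i : ℤ) = ∑ ρ ∈ σ, c ρ * (ordAlong v ρ : ℤ) := by
      simp only [hc, Finset.sum_mul]
      rw [Finset.sum_comm]
      refine Finset.sum_congr rfl fun ρ hρ => ?_
      rw [← hmem j0 hj0 ρ hρ]
      push_cast
      rw [Finset.mul_sum]
      exact Finset.sum_congr rfl fun l _ => by ring
    have h3 : t = -∑ ρ ∈ σ, c ρ * (ordAlong v ρ : ℤ) := by rw [← h2]; linarith
    rw [h3]
    refine (Finset.dvd_sum fun ρ hρ => ?_).neg_right
    exact Dvd.dvd.mul_left (by exact_mod_cast h ρ hρ) _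
  · intro h ρ hρ
    have h1 := h (fun l => (ρ l : ℤ)) (-(ordAlong v ρ : ℤ)) (fun j hj => by
      rw [← hmem j hj ρ hρ]
      push_cast
      ring)
    rw [dvd_neg] at h1
    exact_mod_cast h1

end Pool.Agent.W30.TW
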